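import Pool.Agent.Y872.L.Defs

/-!
Job 594 (LT-SUP, helper290): the generating functions are `o(1/δ)`, uniformly on compact sets.
-/

set_option autoImplicit false

namespace Pool.Agent.Y290.LT.Sup

open Finset Filter Topology
open Pool.Agent.Y872.L

/-- the constant `∑ 1/p²` -/
noncomputable def K : ℝ := ∑' p : Nat.Primes, ((p : ℕ) : ℝ) ^ (-2 : ℝ)

lemma summ2 : Summable (fun p : Nat.Primes => ((p : ℕ) : ℝ) ^ (-2 : ℝ)) :=
  Nat.Primes.summable_rpow.2 (by norm_num)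

lemma log_bound {z : ℂ} {x : ℝ} (hz : ‖z‖ ≤ x) (hx : x ≤ 1 / 2) :
    |(-Complex.log (1 - z)).re - z.re| ≤ x ^ 2 := by
  have h1 : ‖z‖ < 1 := by linarith
  have h2 := Complex.norm_log_one_add_sub_self_le (z := -z) (by rwa [norm_neg])
  rw [norm_neg] at h2
  have h3 : (-Complex.log (1 - z)).re - z.re = (-(Complex.log (1 + -z) - -z)).re := by
    simp [sub_eq_add_neg]
    ring
  rw [h3]
  refine (Complex.abs_re_le_norm _).trans ?_
  rw [norm_neg]
  refine h2.trans ?_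
  have h0 := norm_nonneg z
  have h4 : (1 - ‖z‖)⁻¹ ≤ 2 := by
    rw [inv_le_comm₀ (by linarith) (by norm_num)]
    linarith
  calc ‖z‖ ^ 2 * (1 - ‖z‖)⁻¹ / 2 ≤ ‖z‖ ^ 2 * 2 / 2 := by gcongr
    _ = ‖z‖ ^ 2 := by ring
    _ ≤ x ^ 2 := by gcongr

section euler

variable (φ : ℕ →*₀ ℂ) (hs : Summable (fun n => ‖φ n‖))
  (hp : ∀ p : ℕ, p.Prime → ‖φ p‖ ≤ 1 / (p : ℝ))

include hs hp

lemma prime_half (p : Nat.Primes) : 1 / ((p : ℕ) : ℝ) ≤ 1 / 2 := by
  have : (2 : ℝ) ≤ ((p : ℕ) : ℝ) := by exact_mod_cast p.2.two_le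
  exact one_div_le_one_div_of_le (by norm_num) this

lemma summ_re : Summable (fun p : Nat.Primes => (φ p).re) := by
  have h1 : Summable (fun p : Nat.Primes => ‖φ p‖) := hs.subtype _
  exact h1.of_norm_bounded (fun p => by
    rw [Real.norm_eq_abs]; exact Complex.abs_re_le_norm _)

lemma summ_log : Summable (fun p : Nat.Primes => (-Complex.log (1 - φ p))) :=
  (hs.of_norm.clog_one_sub).neg.subtype _

lemma norm_eq : ‖∑' n, φ n‖ = Real.exp (∑' p : Nat.Primes, (-Complex.log (1 - φ p)).re) := by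
  rw [← EulerProduct.exp_tsum_primes_log_eq_tsum hs, Complex.norm_exp,
    Complex.re_tsum (summ_log φ hs hp)]

lemma term_bound (p : Nat.Primes) :
    |(-Complex.log (1 - φ p)).re - (φ p).re| ≤ ((p : ℕ) : ℝ) ^ (-2 : ℝ) := by
  refine (log_bound (hp p p.2) (prime_half φ hs hp p)).trans (le_of_eq ?_)
  have : (0 : ℝ) < ((p : ℕ) : ℝ) := by exact_mod_cast p.2.pos
  rw [Real.rpow_neg this.le, one_div, inv_pow]
  norm_num

lemma upper : ‖∑' n, φ n‖ ≤ Real.exp (∑' p : Nat.Primes, (φ p).re + K) := by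
  rw [norm_eq φ hs hp]
  apply Real.exp_le_exp.2
  have h1 := summ_re φ hs hp
  have h2 : Summable (fun p : Nat.Primes => (-Complex.log (1 - φ p)).re) :=
    (Complex.hasSum_re (summ_log φ hs hp).hasSum).summable
  rw [K, ← h1.tsum_add summ2]
  refine h2.tsum_le_tsum (fun p => ?_) (h1.add summ2)
  have := (abs_le.1 (term_bound φ hs hp p)).2
  linarith

lemma lower : Real.exp (∑' p : Nat.Primes, (φ p).re - K) ≤ ‖∑' n, φ n‖ := by
  rw [norm_eq φ hs hp]
  apply Real.exp_le_exp.2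
  have h1 := summ_re φ hs hp
  have h2 : Summable (fun p : Nat.Primes => (-Complex.log (1 - φ p)).re) :=
    (Complex.hasSum_re (summ_log φ hs hp).hasSum).summable
  rw [K, ← h1.tsum_sub summ2]
  refine (h1.sub summ2).tsum_le_tsum (fun p => ?_) h2
  have := (abs_le.1 (term_bound φ hs hp p)).1
  linarith

end euler


/-! ### the functions -/

/-- the point `1 + δ + iy` -/
noncomputable def pt (δ y : ℝ) : ℂ := ((1 + δ : ℝ) + y * Complex.I : ℂ)

lemma pt_re (δ y : ℝ) : (pt δ y).re = 1 + δ := by simp [pt]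

lemma pt_ne {δ : ℝ} (hδ : 0 < δ) (y : ℝ) : pt δ y ≠ 0 := by
  intro h
  have := pt_re δ y
  rw [h] at this
  simp at this
  linarith

lemma norm_pow (δ y : ℝ) {n : ℕ} (hn : 0 < n) : ‖(n : ℂ) ^ (-(pt δ y))‖ = (n : ℝ) ^ (-(1 + δ)) := by
  rw [Complex.norm_natCast_cpow_of_pos hn, Complex.neg_re, pt_re]

lemma absf {f : ℕ → ℤ} (hf : CM f) (n : ℕ) : ‖(f n : ℂ)‖ ≤ 1 := by
  rcases Nat.eq_zero_or_pos n with rfl | h
  · simp [hf.zero]
  · rcases hf.val n h with h | h <;> simp [h]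

section main

variable {f : ℕ → ℤ} (hf : CM f) {q : ℕ} (χ : DirichletCharacter ℂ q)

/-- the summand -/
noncomputable def Phi (δ y : ℝ) (hδ : 0 < δ) : ℕ →*₀ ℂ where
  toFun n := ((f n : ℂ) * χ (n : ZMod q)) * (n : ℂ) ^ (-(pt δ y))
  map_zero' := by simp [hf.zero]
  map_one' := by simp [hf.one]
  map_mul' m n := by
    have h := (dirichletSummandHom χ (pt_ne hδ y)).map_mul m n
    simp only [dirichletSummandHom, MonoidWithZeroHom.coe_mk, ZeroHom.coe_mk] at h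
    rw [mul_assoc, h, hf.mul]
    push_cast
    ring

lemma Phi_apply (δ y : ℝ) (hδ : 0 < δ) (n : ℕ) :
    Phi hf χ δ y hδ n = ((f n : ℂ) * χ (n : ZMod q)) * (n : ℂ) ^ (-(pt δ y)) := rfl

lemma Phi_le (δ y : ℝ) (hδ : 0 < δ) {n : ℕ} (hn : 0 < n) :
    ‖Phi hf χ δ y hδ n‖ ≤ (n : ℝ) ^ (-(1 + δ)) := by
  rw [Phi_apply, norm_mul, norm_mul, norm_pow δ y hn]
  have h1 : ‖(f n : ℂ)‖ * ‖χ (n : ZMod q)‖ ≤ 1 * 1 :=
    mul_le_mul (absf hf n) (χ.norm_le_one _) (norm_nonneg _) zero_le_one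
  have h2 : (0 : ℝ) ≤ (n : ℝ) ^ (-(1 + δ)) := by positivity
  nlinarith

lemma Phi_summ (δ y : ℝ) (hδ : 0 < δ) : Summable (fun n => ‖Phi hf χ δ y hδ n‖) := by
  refine Summable.of_nonneg_of_le (fun _ => norm_nonneg _) (fun n => ?_)
    (Real.summable_nat_rpow.2 (show -(1 + δ) < -1 by linarith))
  rcases Nat.eq_zero_or_pos n with rfl | hn
  · rw [map_zero, norm_zero]
    positivity
  · exact Phi_le hf χ δ y hδ hn

lemma rpow_le_inv {δ : ℝ} (hδ : 0 ≤ δ) {p : ℕ} (hp : p.Prime) :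
    (p : ℝ) ^ (-(1 + δ)) ≤ 1 / (p : ℝ) := by
  have h1 : (1 : ℝ) ≤ p := by exact_mod_cast hp.one_lt.le
  rw [one_div, ← Real.rpow_neg_one]
  exact Real.rpow_le_rpow_of_exponent_le h1 (by linarith)

lemma Phi_prime (δ y : ℝ) (hδ : 0 < δ) (p : ℕ) (hp : p.Prime) :
    ‖Phi hf χ δ y hδ p‖ ≤ 1 / (p : ℝ) :=
  (Phi_le hf χ δ y hδ hp.pos).trans (rpow_le_inv hδ.le hp)

/-- the deficit -/
noncomputable def g (f : ℕ → ℤ) {q : ℕ} (χ : DirichletCharacter ℂ q) (p : ℕ) (δ y : ℝ) : ℝ :=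
  (p : ℝ) ^ (-(1 + δ)) - (((f p : ℂ) * χ (p : ZMod q)) * (p : ℂ) ^ (-(pt δ y))).re

lemma cpow_split {p : ℕ} (hp : 0 < p) (δ y : ℝ) :
    (p : ℂ) ^ (-(pt δ y)) = ((p : ℝ) ^ (-(1 + δ)) : ℝ) * (p : ℂ) ^ (-(y * Complex.I)) := by
  have hp' : (p : ℂ) ≠ 0 := by exact_mod_cast hp.ne'
  rw [Complex.ofReal_cpow (by positivity), pt, neg_add, Complex.cpow_add _ _ hp']
  push_cast
  rfl

lemma norm_u {p : ℕ} (hp : 0 < p) (y : ℝ) : ‖(p : ℂ) ^ (-(y * Complex.I))‖ = 1 := by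
  rw [Complex.norm_natCast_cpow_of_pos hp]
  simp

lemma g_eq {p : ℕ} (hp : 0 < p) (δ y : ℝ) :
    g f χ p δ y = (p : ℝ) ^ (-(1 + δ)) *
      (1 - (((f p : ℂ) * χ (p : ZMod q)) * (p : ℂ) ^ (-(y * Complex.I))).re) := by
  unfold g
  rw [cpow_split hp]
  have : ((f p : ℂ) * χ (p : ZMod q)) * (((p : ℝ) ^ (-(1 + δ)) : ℝ) * (p : ℂ) ^ (-(y * Complex.I))) =
      (((p : ℝ) ^ (-(1 + δ)) : ℝ) : ℂ) *
        (((f p : ℂ) * χ (p : ZMod q)) * (p : ℂ) ^ (-(y * Complex.I))) := by ring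
  rw [this, Complex.re_ofReal_mul]
  ring

include hf

lemma b_norm {p : ℕ} (hp : 0 < p) (y : ℝ) :
    ‖((f p : ℂ) * χ (p : ZMod q)) * (p : ℂ) ^ (-(y * Complex.I))‖ ≤ 1 := by
  rw [norm_mul, norm_mul, norm_u hp, mul_one]
  calc ‖(f p : ℂ)‖ * ‖χ (p : ZMod q)‖ ≤ 1 * 1 :=
        mul_le_mul (absf hf p) (χ.norm_le_one _) (norm_nonneg _) zero_le_one
    _ = 1 := one_mul 1

lemma g_nonneg {p : ℕ} (hp : 0 < p) (δ y : ℝ) : 0 ≤ g f χ p δ y := by
  rw [g_eq χ hp]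
  have h1 := (Complex.re_le_norm _).trans (b_norm hf χ hp y)
  have h2 : (0 : ℝ) ≤ (p : ℝ) ^ (-(1 + δ)) := by positivity
  exact mul_nonneg h2 (by linarith)

omit hf in
lemma key_ineq {b : ℂ} (hb : ‖b‖ ≤ 1) : 1 - (b ^ 2).re ≤ 4 * (1 - b.re) := by
  have h1 : b.re ^ 2 + b.im ^ 2 ≤ 1 := by
    have := Complex.sq_norm b
    rw [Complex.normSq_apply] at this
    have h2 : ‖b‖ ^ 2 ≤ 1 := pow_le_one₀ (norm_nonneg _) hb
    nlinarith
  have h2 : (b ^ 2).re = b.re ^ 2 - b.im ^ 2 := by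
    rw [pow_two, Complex.mul_re]
    ring
  rw [h2]
  nlinarith [sq_nonneg (1 - b.re)]

end main

/-- near `1` the zeta function is at most `2/δ` -/
lemma zeta_up : ∀ᶠ δ : ℝ in 𝓝[>] 0,
    δ * Real.exp (∑' p : Nat.Primes, ((p : ℕ) : ℝ) ^ (-(1 + δ)) - K) ≤ 2 := by
  have h1 := tendsto_sub_mul_tsum_nat_rpow
  have h2 : Tendsto (fun δ : ℝ => 1 + δ) (𝓝[>] 0) (𝓝[>] 1) := by
    refine tendsto_nhdsWithin_iff.2 ⟨?_, ?_⟩
    · have : Tendsto (fun δ : ℝ => 1 + δ) (𝓝 0) (𝓝 (1 + 0)) := by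
        exact (continuous_const.add continuous_id).tendsto _
      rw [add_zero] at this
      exact this.mono_left nhdsWithin_le_nhds
    · filter_upwards [self_mem_nhdsWithin] with δ hδ
      have : (0 : ℝ) < δ := hδ
      simpa using this
  have h3 := (h1.comp h2).eventually (gt_mem_nhds (show (1 : ℝ) < 2 by norm_num))
  filter_upwards [h3, self_mem_nhdsWithin] with δ h4 hδ
  have hδ' : (0 : ℝ) < δ := hδ
  have hs : 1 < (pt δ 0).re := by rw [pt_re]; linarith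
  have h5 := lower (riemannZetaSummandHom (Complex.ne_zero_of_one_lt_re hs))
    (summable_riemannZetaSummand hs) (fun p hp => by
      show ‖(p : ℂ) ^ (-(pt δ 0))‖ ≤ 1 / (p : ℝ)
      rw [norm_pow δ 0 hp.pos]
      exact rpow_le_inv hδ'.le hp)
  have h6 : (∑' p : Nat.Primes, (riemannZetaSummandHom (Complex.ne_zero_of_one_lt_re hs) (p : ℕ)).re)
      = ∑' p : Nat.Primes, ((p : ℕ) : ℝ) ^ (-(1 + δ)) := by
    apply tsum_congr
    intro p
    show (((p : ℕ) : ℂ) ^ (-(pt δ 0))).re = _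
    rw [cpow_split p.2.pos]
    simp
  rw [h6] at h5
  have h7 : ‖∑' n : ℕ, riemannZetaSummandHom (Complex.ne_zero_of_one_lt_re hs) n‖ ≤
      ∑' n : ℕ, 1 / (n : ℝ) ^ (1 + δ) := by
    refine (norm_tsum_le_tsum_norm (summable_riemannZetaSummand hs)).trans (le_of_eq ?_)
    apply tsum_congr
    intro n
    show ‖(n : ℂ) ^ (-(pt δ 0))‖ = _
    rcases Nat.eq_zero_or_pos n with rfl | hn
    · rw [Nat.cast_zero, Nat.cast_zero, Complex.zero_cpow (neg_ne_zero.2 (pt_ne hδ' 0)), norm_zero,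
        Real.zero_rpow (by linarith), div_zero]
    · rw [norm_pow δ 0 hn, Real.rpow_neg (by positivity), one_div]
  simp only [Function.comp_def] at h4
  have h8 : (1 + δ - 1) = δ := by ring
  rw [h8] at h4
  calc δ * Real.exp (∑' p : Nat.Primes, ((p : ℕ) : ℝ) ^ (-(1 + δ)) - K)
      ≤ δ * ∑' n : ℕ, 1 / (n : ℝ) ^ (1 + δ) :=
        mul_le_mul_of_nonneg_left (h5.trans h7) hδ'.le
    _ ≤ 2 := h4.le


section div

variable {f : ℕ → ℤ} (hf : CM f) {q : ℕ} (χ : DirichletCharacter ℂ q)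

include hf

/-- comparison with the square of the character -/
lemma h_le {p : ℕ} (hp : p.Prime) {δ : ℝ} (hδ : 0 ≤ δ) (y : ℝ) :
    (p : ℝ) ^ (-(1 + δ)) - ((χ ^ 2) (p : ZMod q) * (p : ℂ) ^ (-(pt δ (2 * y)))).re ≤
      4 * g f χ p 0 y := by
  have hp0 := hp.pos
  set b : ℂ := ((f p : ℂ) * χ (p : ZMod q)) * (p : ℂ) ^ (-(y * Complex.I)) with hb
  have hb1 : ‖b‖ ≤ 1 := b_norm hf χ hp0 y
  have e1 : ((f p : ℂ)) ^ 2 = 1 := by
    rcases hf.val p hp0 with h | h <;> simp [h]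
  have e2 : b ^ 2 = (χ ^ 2) (p : ZMod q) * (p : ℂ) ^ (-((2 * y : ℝ) * Complex.I)) := by
    have e3 : (p : ℂ) ^ (-((2 * y : ℝ) * Complex.I)) = ((p : ℂ) ^ (-(y * Complex.I))) ^ 2 := by
      rw [← Complex.cpow_nat_mul]
      congr 1
      push_cast
      ring
    rw [e3, hb, mul_pow, mul_pow, e1, one_mul, MulChar.pow_apply' _ two_ne_zero]
  have e4 : ((χ ^ 2) (p : ZMod q) * (p : ℂ) ^ (-(pt δ (2 * y)))).re =
      (p : ℝ) ^ (-(1 + δ)) * (b ^ 2).re := by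
    rw [cpow_split hp0, e2, ← Complex.re_ofReal_mul]
    congr 1
    ring
  rw [e4, g_eq χ hp0]
  have h1 : (p : ℝ) ^ (-(1 + δ)) ≤ (p : ℝ) ^ (-(1 + (0 : ℝ))) := by
    refine Real.rpow_le_rpow_of_exponent_le ?_ (by linarith)
    exact_mod_cast hp.one_lt.le
  have h2 : (0 : ℝ) ≤ (p : ℝ) ^ (-(1 + δ)) := by positivity
  have h3 := key_ineq hb1
  have h4 : 0 ≤ 1 - b.re := by
    have := (Complex.re_le_norm b).trans hb1
    linarith
  calc (p : ℝ) ^ (-(1 + δ)) - (p : ℝ) ^ (-(1 + δ)) * (b ^ 2).re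
      = (p : ℝ) ^ (-(1 + δ)) * (1 - (b ^ 2).re) := by ring
    _ ≤ (p : ℝ) ^ (-(1 + δ)) * (4 * (1 - b.re)) := mul_le_mul_of_nonneg_left h3 h2
    _ ≤ (p : ℝ) ^ (-(1 + (0 : ℝ))) * (4 * (1 - b.re)) :=
        mul_le_mul_of_nonneg_right h1 (by linarith)
    _ = 4 * ((p : ℝ) ^ (-(1 + (0 : ℝ))) * (1 - b.re)) := by ring

lemma nonsumm_A (hq : 0 < q) (y : ℝ) (h : χ ^ 2 ≠ 1 ∨ y ≠ 0) :
    ¬ Summable (fun p : Nat.Primes => g f χ p 0 y) := by
  intro hsum
  haveI : NeZero q := ⟨hq.ne'⟩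
  set B : ℝ := ∑' p : Nat.Primes, g f χ p 0 y with hB
  set ψ : DirichletCharacter ℂ q := χ ^ 2 with hψ
  -- the `L`-function is bounded
  have hpt : pt 0 (2 * y) ≠ 1 ∨ ψ ≠ 1 := by
    rcases h with h | h
    · exact Or.inr h
    · left
      intro h1
      have h2 := congrArg Complex.im h1
      simp [pt] at h2
      exact h h2
  have hcont : ContinuousAt (fun δ : ℝ => ‖DirichletCharacter.LFunction ψ (pt δ (2 * y))‖) 0 := by
    have h1 : ContinuousAt (DirichletCharacter.LFunction ψ) (pt 0 (2 * y)) :=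
      (DirichletCharacter.differentiableAt_LFunction ψ _ hpt).continuousAt
    have h2 : Continuous (fun δ : ℝ => pt δ (2 * y)) := by
      unfold pt
      fun_prop
    exact (ContinuousAt.comp (f := fun δ : ℝ => pt δ (2 * y)) h1 h2.continuousAt).norm
  obtain ⟨C, hC1, hC⟩ : ∃ C : ℝ, 1 ≤ C ∧
      ∀ᶠ δ : ℝ in 𝓝[>] 0, ‖DirichletCharacter.LFunction ψ (pt δ (2 * y))‖ ≤ C := by
    refine ⟨‖DirichletCharacter.LFunction ψ (pt 0 (2 * y))‖ + 1, by
      have := norm_nonneg (DirichletCharacter.LFunction ψ (pt 0 (2 * y)))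
      linarith, ?_⟩
    have h3 := hcont.eventually (ge_mem_nhds (lt_add_one _))
    exact h3.filter_mono nhdsWithin_le_nhds
  have key : ∀ᶠ δ : ℝ in 𝓝[>] 0,
      ∑' p : Nat.Primes, ((p : ℕ) : ℝ) ^ (-(1 + δ)) ≤ 4 * B + (Real.log C + K) := by
    filter_upwards [hC, self_mem_nhdsWithin] with δ h1 hδ
    have hδ' : (0 : ℝ) < δ := hδ
    have hs : 1 < (pt δ (2 * y)).re := by rw [pt_re]; linarith
    have hbd : ∀ p : ℕ, p.Prime →
        ‖dirichletSummandHom ψ (Complex.ne_zero_of_one_lt_re hs) p‖ ≤ 1 / (p : ℝ) := by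
      intro p hp
      show ‖ψ (p : ZMod q) * (p : ℂ) ^ (-(pt δ (2 * y)))‖ ≤ 1 / (p : ℝ)
      rw [norm_mul, norm_pow δ _ hp.pos]
      have h2 := ψ.norm_le_one (p : ZMod q)
      have h3 : (0 : ℝ) ≤ (p : ℝ) ^ (-(1 + δ)) := by positivity
      have h4 := rpow_le_inv hδ'.le hp
      nlinarith
    have h5 := lower (dirichletSummandHom ψ (Complex.ne_zero_of_one_lt_re hs))
      (summable_dirichletSummand ψ hs) hbd
    have h6 := summ_re (dirichletSummandHom ψ (Complex.ne_zero_of_one_lt_re hs))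
      (summable_dirichletSummand ψ hs) hbd
    rw [tsum_dirichletSummand ψ hs, ← DirichletCharacter.LFunction_eq_LSeries ψ hs] at h5
    have h7 : Real.exp (∑' p : Nat.Primes,
        (dirichletSummandHom ψ (Complex.ne_zero_of_one_lt_re hs) (p : ℕ)).re - K) ≤ C := h5.trans h1
    have h8 := Real.log_le_log (Real.exp_pos _) h7
    rw [Real.log_exp] at h8
    have hsP : Summable (fun p : Nat.Primes => ((p : ℕ) : ℝ) ^ (-(1 + δ))) :=
      Nat.Primes.summable_rpow.2 (by linarith)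
    have h9 : ∑' p : Nat.Primes, (((p : ℕ) : ℝ) ^ (-(1 + δ)) -
        (dirichletSummandHom ψ (Complex.ne_zero_of_one_lt_re hs) (p : ℕ)).re) ≤
        ∑' p : Nat.Primes, 4 * g f χ p 0 y := by
      refine (hsP.sub h6).tsum_le_tsum (fun p => ?_) (hsum.mul_left 4)
      exact h_le hf χ p.2 hδ'.le y
    rw [hsP.tsum_sub h6, tsum_mul_left] at h9
    linarith
  -- finite sums
  have hfin : ∀ S : Finset Nat.Primes,
      ∑ p ∈ S, (1 / ((p : ℕ) : ℝ)) ≤ 4 * B + (Real.log C + K) := by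
    intro S
    have h1 : Tendsto (fun δ : ℝ => ∑ p ∈ S, ((p : ℕ) : ℝ) ^ (-(1 + δ))) (𝓝[>] 0)
        (𝓝 (∑ p ∈ S, (1 / ((p : ℕ) : ℝ)))) := by
      have h2 : Continuous (fun δ : ℝ => ∑ p ∈ S, ((p : ℕ) : ℝ) ^ (-(1 + δ))) := by
        refine continuous_finsetSum _ fun p _ => ?_
        refine Continuous.rpow continuous_const (by fun_prop) (fun x => ?_)
        left
        exact_mod_cast p.2.ne_zero
      have h3 := h2.tendsto 0
      have h4 : ∑ p ∈ S, ((p : ℕ) : ℝ) ^ (-(1 + (0 : ℝ))) = ∑ p ∈ S, (1 / ((p : ℕ) : ℝ)) := by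
        refine sum_congr rfl fun p _ => ?_
        rw [add_zero, Real.rpow_neg_one, one_div]
      rw [h4] at h3
      exact h3.mono_left nhdsWithin_le_nhds
    refine le_of_tendsto h1 ?_
    filter_upwards [key, self_mem_nhdsWithin] with δ h2 hδ
    have hδ' : (0 : ℝ) < δ := hδ
    refine le_trans ?_ h2
    exact (Nat.Primes.summable_rpow.2 (by linarith)).sum_le_tsum S (fun p _ => by positivity)
  exact Nat.Primes.not_summable_one_div
    (summable_of_sum_le (fun p => by positivity) hfin)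

lemma nonsumm_B (hq : 0 < q) (hnp : NonPret f) (h : χ ^ 2 = 1) :
    ¬ Summable (fun p : Nat.Primes => g f χ p 0 0) := by
  classical
  intro hsum
  refine hnp q hq χ h ?_
  unfold Pr
  have h1 : Summable (fun p : ℕ => Set.indicator {p : ℕ | p.Prime} (fun p => g f χ p 0 0) p) :=
    summable_subtype_iff_indicator.1 hsum
  refine Summable.of_nonneg_of_le (fun p => ?_) (fun p => ?_) h1
  · split_ifs
    · positivity
    · exact le_rfl
  · by_cases hp : p.Prime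
    · rw [Set.indicator_of_mem (show p ∈ {p : ℕ | p.Prime} from hp)]
      split_ifs with h2
      · rw [g_eq χ hp.pos, add_zero, Real.rpow_neg_one, one_div]
        have h3 : (0 : ℝ) ≤ (p : ℝ)⁻¹ := by positivity
        have h4 : (((f p : ℂ) * χ (p : ZMod q)) * (p : ℂ) ^ (-((0 : ℝ) * Complex.I))).re ≤ 0 := by
          have e0 : (p : ℂ) ^ (-((0 : ℝ) * Complex.I)) = 1 := by simp
          rw [e0, mul_one]
          have h5 : χ (p : ZMod q) = 0 ∨ χ (p : ZMod q) = 1 ∨ χ (p : ZMod q) = -1 := by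
            by_cases hu : IsUnit (p : ZMod q)
            · right
              have h6 : (χ (p : ZMod q)) ^ 2 = 1 := by
                rw [← MulChar.pow_apply' _ two_ne_zero, h, MulChar.one_apply hu]
              rw [sq, mul_self_eq_one_iff] at h6
              exact h6
            · left
              exact χ.map_nonunit hu
          have h7 := hf.val p hp.pos
          have h8 := h2.2
          rcases h5 with h5 | h5 | h5
          · rw [h5]; simp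
          · rcases h7 with h7 | h7
            · exact absurd (by rw [h5, h7]; norm_num) h8
            · rw [h5, h7]; norm_num
          · rcases h7 with h7 | h7
            · rw [h5, h7]; norm_num
            · exact absurd (by rw [h5, h7]; norm_num) h8
        nlinarith
      · exact g_nonneg hf χ hp.pos 0 0
    · rw [Set.indicator_of_notMem (show p ∉ {p : ℕ | p.Prime} from hp), if_neg (fun h => hp h.1)]

end div

lemma g_cont (f : ℕ → ℤ) {q : ℕ} (χ : DirichletCharacter ℂ q) {p : ℕ} (hp : 0 < p) :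
    Continuous (fun x : ℝ × ℝ => g f χ p x.1 x.2) := by
  have hp' : (p : ℝ) ≠ 0 := by exact_mod_cast hp.ne'
  have hp'' : (p : ℂ) ≠ 0 := by exact_mod_cast hp.ne'
  unfold g
  refine Continuous.sub ?_ ?_
  · exact Continuous.rpow continuous_const (by fun_prop) (fun x => Or.inl hp')
  · refine Complex.continuous_re.comp (continuous_const.mul ?_)
    refine Continuous.const_cpow (by unfold pt; fun_prop) (Or.inl hp'')

theorem sup : S_SUP := by
  intro f hf hnp q hq χ B η hη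
  -- local statement
  have hloc : ∀ y₀ ∈ Set.Icc (-B) B, ∀ᶠ z : ℝ × ℝ in 𝓝 ((0 : ℝ), y₀),
      0 < z.1 → z.1 * ‖∑' n : ℕ, ((f n : ℂ) * χ (n : ZMod q)) *
        (n : ℂ) ^ (-((1 + z.1 : ℝ) + z.2 * Complex.I : ℂ))‖ ≤ η := by
    intro y₀ _
    have hns : ¬ Summable (fun p : Nat.Primes => g f χ p 0 y₀) := by
      by_cases h : χ ^ 2 ≠ 1 ∨ y₀ ≠ 0
      · exact nonsumm_A hf χ hq y₀ h
      · push Not at h
        rw [h.2]
        exact nonsumm_B hf χ hq hnp h.1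
    obtain ⟨M, hM⟩ : ∃ M : ℝ, 2 * Real.exp (2 * K - M) ≤ η := by
      refine ⟨2 * K - Real.log (η / 2), ?_⟩
      have : 2 * K - (2 * K - Real.log (η / 2)) = Real.log (η / 2) := by ring
      rw [this, Real.exp_log (by positivity)]
      linarith
    obtain ⟨S, hS⟩ : ∃ S : Finset Nat.Primes, M < ∑ p ∈ S, g f χ p 0 y₀ := by
      by_contra hcon
      push Not at hcon
      exact hns (summable_of_sum_le (fun p => g_nonneg hf χ p.2.pos 0 y₀) hcon)
    have hc : Continuous (fun x : ℝ × ℝ => ∑ p ∈ S, g f χ p x.1 x.2) :=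
      continuous_finsetSum _ fun p _ => g_cont f χ p.2.pos
    have h1 : ∀ᶠ z : ℝ × ℝ in 𝓝 ((0 : ℝ), y₀), M < ∑ p ∈ S, g f χ p z.1 z.2 :=
      (hc.tendsto ((0 : ℝ), y₀)).eventually (lt_mem_nhds hS)
    have h2 : ∀ᶠ z : ℝ × ℝ in 𝓝 ((0 : ℝ), y₀), 0 < z.1 →
        z.1 * Real.exp (∑' p : Nat.Primes, ((p : ℕ) : ℝ) ^ (-(1 + z.1)) - K) ≤ 2 := by
      have h3 := eventually_nhdsWithin_iff.1 zeta_up
      have h4 : Tendsto (fun z : ℝ × ℝ => z.1) (𝓝 ((0 : ℝ), y₀)) (𝓝 0) :=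
        continuous_fst.tendsto ((0 : ℝ), y₀)
      exact h4.eventually h3
    filter_upwards [h1, h2] with z h3 h4 hz
    have h5 := upper (Phi hf χ z.1 z.2 hz) (Phi_summ hf χ z.1 z.2 hz)
      (Phi_prime hf χ z.1 z.2 hz)
    have h6 := summ_re (Phi hf χ z.1 z.2 hz) (Phi_summ hf χ z.1 z.2 hz)
      (Phi_prime hf χ z.1 z.2 hz)
    have hsP : Summable (fun p : Nat.Primes => ((p : ℕ) : ℝ) ^ (-(1 + z.1))) :=
      Nat.Primes.summable_rpow.2 (by linarith)
    have h7 : Summable (fun p : Nat.Primes => g f χ p z.1 z.2) := hsP.sub h6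
    have h8 : ∑' p : Nat.Primes, g f χ p z.1 z.2 = ∑' p : Nat.Primes, ((p : ℕ) : ℝ) ^ (-(1 + z.1)) -
        ∑' p : Nat.Primes, (Phi hf χ z.1 z.2 hz (p : ℕ)).re := hsP.tsum_sub h6
    have h9 : M < ∑' p : Nat.Primes, g f χ p z.1 z.2 :=
      h3.trans_le (h7.sum_le_tsum S (fun p _ => g_nonneg hf χ p.2.pos z.1 z.2))
    have h10 : z.1 * ‖∑' n, Phi hf χ z.1 z.2 hz n‖ ≤ η := by
      calc z.1 * ‖∑' n, Phi hf χ z.1 z.2 hz n‖
          ≤ z.1 * Real.exp (∑' p : Nat.Primes, (Phi hf χ z.1 z.2 hz (p : ℕ)).re + K) :=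
            mul_le_mul_of_nonneg_left h5 hz.le
        _ = (z.1 * Real.exp (∑' p : Nat.Primes, ((p : ℕ) : ℝ) ^ (-(1 + z.1)) - K)) *
            Real.exp (2 * K - ∑' p : Nat.Primes, g f χ p z.1 z.2) := by
            rw [mul_assoc, ← Real.exp_add]
            congr 2
            rw [h8]
            ring
        _ ≤ 2 * Real.exp (2 * K - ∑' p : Nat.Primes, g f χ p z.1 z.2) :=
            mul_le_mul_of_nonneg_right (h4 hz) (Real.exp_pos _).le
        _ ≤ 2 * Real.exp (2 * K - M) := by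
            have : Real.exp (2 * K - ∑' p : Nat.Primes, g f χ p z.1 z.2) ≤
                Real.exp (2 * K - M) := Real.exp_le_exp.2 (by linarith)
            linarith
        _ ≤ η := hM
    exact h10
  have hev : ∀ᶠ δ : ℝ in 𝓝 0, ∀ y ∈ Set.Icc (-B) B, 0 < δ → δ * ‖∑' n : ℕ,
      ((f n : ℂ) * χ (n : ZMod q)) * (n : ℂ) ^ (-((1 + δ : ℝ) + y * Complex.I : ℂ))‖ ≤ η :=
    IsCompact.eventually_forall_of_forall_eventually (x₀ := (0 : ℝ)) (K := Set.Icc (-B) B)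
      (P := fun δ y : ℝ => 0 < δ → δ * ‖∑' n : ℕ, ((f n : ℂ) * χ (n : ZMod q)) *
        (n : ℂ) ^ (-((1 + δ : ℝ) + y * Complex.I : ℂ))‖ ≤ η) isCompact_Icc hloc
  obtain ⟨r, hr, hball⟩ := Metric.eventually_nhds_iff.1 hev
  refine ⟨min r 1, lt_min hr one_pos, min_le_right _ _, ?_⟩
  intro δ hδ0 hδ y hy
  have h1 : dist δ 0 < r := by
    rw [Real.dist_eq, sub_zero, abs_of_pos hδ0]
    exact hδ.trans_le (min_le_left _ _)
  exact hball h1 y (abs_le.1 hy) hδ0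

end Pool.Agent.Y290.LT.Sup
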