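import Pool.Agent.Y872.L.Defs
import Pool.Agent.TH112.BL.Core

/-!
Job 599 (LT-D, helper290): two-point correlations vanish for logarithmic means (Tao's decoupling).
-/

set_option autoImplicit false

namespace Pool.Agent.Y290.LT.D

open Finset Filter
open Pool.Agent.TH112.BL (LM Bd QD win jj)
open Pool.Agent.Y872.L

lemma val3 {f : ℕ → ℤ} (hf : CM f) (n : ℕ) : f n = 0 ∨ f n = 1 ∨ f n = -1 := by
  rcases Nat.eq_zero_or_pos n with rfl | h
  · exact Or.inl hf.zero
  · rcases hf.val n h with h | h
    · exact Or.inr (Or.inl h)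
    · exact Or.inr (Or.inr h)

lemma absf {f : ℕ → ℤ} (hf : CM f) (n : ℕ) : |(f n : ℝ)| ≤ 1 := by
  rcases val3 hf n with h | h | h <;> rw [h] <;> norm_num

lemma sign_f {f : ℕ → ℤ} (hf : CM f) (n : ℕ) : ((SignType.sign (f n) : SignType) : ℤ) = f n := by
  rcases val3 hf n with h | h | h <;> rw [h] <;> simp

/-- the pair product -/
noncomputable def F (f : ℕ → ℤ) (k x : ℕ) : ℝ := (f x : ℝ) * f (x + k)

lemma F_abs {f : ℕ → ℤ} (hf : CM f) (k x : ℕ) : |F f k x| ≤ 1 := by
  unfold F
  rw [abs_mul]
  calc |(f x : ℝ)| * |(f (x + k) : ℝ)| ≤ 1 * 1 :=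
        mul_le_mul (absf hf _) (absf hf _) (abs_nonneg _) zero_le_one
    _ = 1 := one_mul 1

lemma F_bd {f : ℕ → ℤ} (hf : CM f) (k : ℕ) : Bd (F f k) := ⟨1, F_abs hf k⟩

lemma C2_eq (μ : LM) (f : ℕ → ℤ) (k : ℕ) : C2 μ f k = μ.m (F f k) := rfl

/-- the local function -/
noncomputable def Psi (f : ℕ → ℤ) (h p n r : ℕ) : ℝ := F f (p * h) (n + (p - r % p) % p)

lemma Psi_abs {f : ℕ → ℤ} (hf : CM f) (h p n r : ℕ) : |Psi f h p n r| ≤ 1 := F_abs hf _ _

lemma mean_mod (μ : LM) (W r : ℕ) (hW : 1 ≤ W) (hr : r < W) :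
    μ.m (fun n => if n % W = r then 1 else 0) = 1 / (W : ℝ) := by
  have hb : ∀ j, Bd (fun n : ℕ => if n % W = j then (1 : ℝ) else 0) := fun j =>
    ⟨1, fun n => by
      show |if n % W = j then (1 : ℝ) else 0| ≤ 1
      split_ifs <;> simp⟩
  -- all classes have the mean of class `0`
  have h1 : ∀ j, j < W → μ.m (fun n => if n % W = j then 1 else 0) =
      μ.m (fun n => if n % W = 0 then 1 else 0) := by
    intro j hj
    rw [← μ.shiftk j (hb j)]
    congr 1
    funext n
    have : (n + j) % W = j ↔ n % W = 0 := by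
      constructor
      · intro h
        have h2 : (n + j) % W = (0 + j) % W := by rw [h, zero_add, Nat.mod_eq_of_lt hj]
        have h3 : (n + j) ≡ (0 + j) [MOD W] := h2
        have h4 := Nat.ModEq.add_right_cancel' j h3
        simpa [Nat.ModEq] using h4
      · intro h
        rw [Nat.add_mod, h, zero_add, Nat.mod_mod, Nat.mod_eq_of_lt hj]
    simp only [this]
  have h2 : μ.m (fun n => ∑ j ∈ range W, if n % W = j then (1 : ℝ) else 0) = 1 := by
    have : (fun n : ℕ => ∑ j ∈ range W, if n % W = j then (1 : ℝ) else 0) = fun _ => 1 := by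
      funext n
      rw [sum_ite_eq]
      rw [if_pos (mem_range.2 (Nat.mod_lt _ hW))]
    rw [this]
    exact μ.one
  rw [μ.sum _ (fun j _ => hb j)] at h2
  rw [sum_congr rfl (fun j hj => h1 j (mem_range.1 hj)), sum_const, card_range, nsmul_eq_mul] at h2
  rw [h1 r hr]
  have hW' : (0 : ℝ) < W := by exact_mod_cast hW
  field_simp
  linarith

theorem c2_zero : S_D := by
  intro μ f hf hEE h hh
  set s : ℝ := C2 μ f h with hs
  have key : ∀ ε : ℝ, 0 < ε → |s| ≤ 6 * ε := by
    intro ε hε
    obtain ⟨e₀, he₀⟩ := hEE h hh ε hε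
    obtain ⟨i₀, hi₀⟩ := Pool.Agent.TH112.BL.cheb
    obtain ⟨i, hi, hdec⟩ := Pool.Agent.TH112.BL.decouple_TH928 μ (fun n => SignType.sign (f n))
      (fun _ n => n : Unit → ℕ → ℕ) (fun _ _ => 1) (fun _ _ => rfl) () (by
        intro W hW r v hr
        have e := mean_mod μ W r hW hr
        have e' : μ.m (fun n => if n % W = r then (1 : ℝ) else 0) = 1 / (W : ℝ) * μ.m (fun _ => 1) := by
          rw [e, μ.one, mul_one]
        convert e' using 4
        · simp
        · simp)
      (2 * (h + 1)) ε hε (max i₀ e₀)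
    have hstep : ∀ i' : ℕ, i ≤ i' → i' ≤ i + 1 →
        |s| * ∑ p ∈ QD i' (i' + 1), Real.log p / 2 ^ i' ≤ 2 * ε := by
      intro i' h1 h2
      have hd := hdec i' h1 h2 (fun p n r => Psi f h p n r) (fun p n r => Psi_abs hf h p n r) (by
        intro p hp n n' r hwin _
        have hp1 : p ≤ 2 ^ (i' + 1) := (mem_Ioc.1 (mem_filter.1 hp).1).2
        have hpp : p.Prime := (mem_filter.1 hp).2
        have hread : ∀ j : ℕ, j < 2 * (h + 1) * 2 ^ i' → f (n + j) = f (n' + j) := by
          intro j hj
          have := congrFun hwin ⟨j, hj⟩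
          simp only [win] at this
          rw [← sign_f hf (n + j), ← sign_f hf (n' + j), this]
        set J := (p - r % p) % p with hJ
        have hJ2 : J < p := Nat.mod_lt _ hpp.pos
        have hb1 : J + p * h < 2 * (h + 1) * 2 ^ i' := by
          calc J + p * h < p + p * h := by omega
            _ = (h + 1) * p := by ring
            _ ≤ (h + 1) * 2 ^ (i' + 1) := Nat.mul_le_mul_left _ hp1
            _ = 2 * (h + 1) * 2 ^ i' := by rw [pow_succ]; ring
        show F f (p * h) (n + J) = F f (p * h) (n' + J)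
        unfold F
        rw [hread J (by omega), add_assoc n, add_assoc n', hread (J + p * h) hb1])
      have ha : ∀ p ∈ QD i' (i' + 1), 0 ≤ Real.log p / 2 ^ i' := by
        intro p hp
        have hpp : p.Prime := (mem_filter.1 hp).2
        exact div_nonneg (Real.log_nonneg (by exact_mod_cast hpp.one_lt.le)) (by positivity)
      have hb1 : ∀ p, Bd (fun n => Psi f h p n (n % p)) := fun p =>
        ⟨1, fun n => Psi_abs hf h p n _⟩
      have hb2 : ∀ p, Bd (fun n => (∑ r ∈ range p, Psi f h p n r) / p) := by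
        intro p
        have := (Bd.sum (range p) (φ := fun r n => Psi f h p n r)
          (fun r _ => ⟨1, fun n => Psi_abs hf h p n r⟩)).cmul ((p : ℝ)⁻¹)
        simpa [div_eq_inv_mul] using this
      have hb3 : ∀ p : ℕ, Bd (fun n => Real.log p / 2 ^ i' *
          (Psi f h p n (n % p) - (∑ r ∈ range p, Psi f h p n r) / p)) := by
        intro p
        refine Bd.cmul _ ?_
        have := (hb1 p).add ((hb2 p).cmul (-1))
        simpa [sub_eq_add_neg] using this
      -- the two means
      have hm1 : ∀ p ∈ QD i' (i' + 1), μ.m (fun n => Psi f h p n (n % p)) = s := by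
        intro p hp
        have hpp : p.Prime := (mem_filter.1 hp).2
        have e := Pool.Agent.TH112.BL.shift_avg μ 0 p hpp.one_lt.le (F_bd hf (p * h))
        have e1 : (fun n => Psi f h p n (n % p)) = fun m => F f (p * h) (m + jj 0 p m) := by
          funext n
          unfold Psi jj
          rw [zero_mul, zero_add, Nat.mod_mod]
        rw [e1, e, hs, C2_eq]
        congr 1
        funext n
        unfold F
        have e2 : p * n + p * h = p * (n + h) := by ring
        rw [e2, hf.mul, hf.mul]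
        have e3 : (f p : ℝ) * f p = 1 := by
          rcases hf.val p hpp.pos with h | h <;> rw [h] <;> norm_num
        push_cast
        calc (f p : ℝ) * f n * ((f p : ℝ) * f (n + h)) = ((f p : ℝ) * f p) * (f n * f (n + h)) := by
              ring
          _ = f n * f (n + h) := by rw [e3, one_mul]
      have hm2 : ∀ p ∈ QD i' (i' + 1),
          μ.m (fun n => (∑ r ∈ range p, Psi f h p n r) / p) = C2 μ f (p * h) := by
        intro p hp
        have hpp : p.Prime := (mem_filter.1 hp).2
        have e1 : (fun n => (∑ r ∈ range p, Psi f h p n r) / p) =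
            fun n => (p : ℝ)⁻¹ * ∑ r ∈ range p, Psi f h p n r := by
          funext n
          rw [div_eq_inv_mul]
        have hbr : ∀ r ∈ range p, Bd (fun n => Psi f h p n r) := fun r _ =>
          ⟨1, fun n => Psi_abs hf h p n r⟩
        rw [e1, μ.smul _ _ (Bd.sum _ hbr), μ.sum _ hbr]
        have e2 : ∀ r ∈ range p, μ.m (fun n => Psi f h p n r) = C2 μ f (p * h) := by
          intro r _
          exact μ.shiftk _ (F_bd hf (p * h))
        rw [sum_congr rfl e2, sum_const, card_range, nsmul_eq_mul]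
        have : (p : ℝ) ≠ 0 := by exact_mod_cast hpp.ne_zero
        field_simp
      have h3 : μ.m (fun n => ∑ p ∈ QD i' (i' + 1), Real.log p / 2 ^ i' *
          (Psi f h p n (n % p) - (∑ r ∈ range p, Psi f h p n r) / p)) =
          ∑ p ∈ QD i' (i' + 1), Real.log p / 2 ^ i' * (s - C2 μ f (p * h)) := by
        rw [μ.sum _ (fun p _ => hb3 p)]
        apply sum_congr rfl
        intro p hp
        have hb4 : Bd (fun n => Psi f h p n (n % p) - (∑ r ∈ range p, Psi f h p n r) / p) := by
          have := (hb1 p).add ((hb2 p).cmul (-1))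
          simpa [sub_eq_add_neg] using this
        rw [μ.smul _ _ hb4, μ.sub (hb1 p) (hb2 p), hm1 p hp, hm2 p hp]
      have h4 : |∑ p ∈ QD i' (i' + 1), Real.log p / 2 ^ i' * (s - C2 μ f (p * h))| ≤ ε := by
        rw [← h3]
        exact (μ.abs_le (Bd.sum _ fun p _ => hb3 p)).trans hd
      have h5 : ∑ p ∈ QD i' (i' + 1), Real.log p / 2 ^ i' * |C2 μ f (p * h)| ≤ ε :=
        he₀ i' ((le_max_right _ _).trans (hi.trans h1))
      have h6 : (∑ p ∈ QD i' (i' + 1), Real.log p / 2 ^ i') * s =
          ∑ p ∈ QD i' (i' + 1), Real.log p / 2 ^ i' * (s - C2 μ f (p * h)) +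
          ∑ p ∈ QD i' (i' + 1), Real.log p / 2 ^ i' * C2 μ f (p * h) := by
        rw [← sum_add_distrib, sum_mul]
        apply sum_congr rfl
        intro p _
        ring
      have h7 : |∑ p ∈ QD i' (i' + 1), Real.log p / 2 ^ i' * C2 μ f (p * h)| ≤ ε := by
        refine (abs_sum_le_sum_abs _ _).trans (le_trans (le_of_eq ?_) h5)
        apply sum_congr rfl
        intro p hp
        rw [abs_mul, abs_of_nonneg (ha p hp)]
      have h8 : |s| * ∑ p ∈ QD i' (i' + 1), Real.log p / 2 ^ i' =
          |(∑ p ∈ QD i' (i' + 1), Real.log p / 2 ^ i') * s| := by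
        rw [abs_mul, abs_of_nonneg (sum_nonneg ha), mul_comm]
      rw [h8, h6]
      calc _ ≤ _ := abs_add_le _ _
        _ ≤ ε + ε := add_le_add h4 h7
        _ = 2 * ε := by ring
    have ha := hstep i le_rfl (by omega)
    have hb := hstep (i + 1) (by omega) le_rfl
    have hc := hi₀ i ((le_max_left _ _).trans hi)
    set A := ∑ p ∈ QD i (i + 1), Real.log p / 2 ^ i
    set B := ∑ p ∈ QD (i + 1) (i + 1 + 1), Real.log p / 2 ^ (i + 1)
    have hc' : 1 ≤ A + 2 * B := hc
    have h9 : |s| * 1 ≤ |s| * (A + 2 * B) := mul_le_mul_of_nonneg_left hc' (abs_nonneg s)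
    nlinarith
  by_contra hne
  have h1 : 0 < |s| := abs_pos.2 hne
  have := key (|s| / 12) (by positivity)
  linarith

end Pool.Agent.Y290.LT.D
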